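import Pool.Agent.W207.PR.A0

set_option autoImplicit false

namespace Pool.Agent.W605.PR

open Filter Topology Set MeasureTheory W207.PR

theorem tst_scale {ψ : ℝ → ℝ} (h : Tst ψ) {R : ℝ} (hR : 1 ≤ R) : Tst (fun a => R * ψ (R * a)) := by
  obtain ⟨h1, h2, μ, hμ0, hμ1, h3⟩ := h
  refine ⟨fun n => ?_, fun x => ?_, μ, hμ0, hμ1, fun x hx => ?_⟩
  · exact contDiff_const.mul ((h1 n).comp (contDiff_const.mul contDiff_id))
  · rw [mul_neg, h2]
  · rw [h3, mul_zero]
    rw [abs_mul, abs_of_pos (by linarith)]
    nlinarith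

theorem dt_scale {ψ : ℝ → ℝ} {R : ℝ} (hR : 1 ≤ R) (x : ℝ) :
    dt (fun a => R * ψ (R * a)) x = (1 / R) * dt ψ (x / R) := by
  unfold dt
  have hR0 : 0 < R := by linarith
  have h1 := Measure.integral_comp_mul_left
    (fun β : ℝ => (2 * Real.pi * β * ψ β) * Real.sin (2 * Real.pi * β * (x / R))) R
  rw [abs_of_pos (inv_pos.mpr hR0), smul_eq_mul] at h1
  have h2 : (∫ α : ℝ, 2 * Real.pi * α * (R * ψ (R * α)) * Real.sin (2 * Real.pi * α * x))
      = ∫ α : ℝ, (2 * Real.pi * (R * α) * ψ (R * α)) * Real.sin (2 * Real.pi * (R * α) * (x / R)) := by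
    congr 1
    ext α
    have e1 : 2 * Real.pi * (R * α) * (x / R) = 2 * Real.pi * α * x := by
      field_simp
    rw [e1]
    ring
  rw [h2, h1]
  ring

theorem mono : S_MONO := by
  intro hT O hO C A hA hC hI N hN hmono a₀ ha₀ hAa
  by_contra hd
  push Not at hd
  set d := O a₀ with hdd
  have ha0 : 0 < a₀ := hA.trans hAa
  obtain ⟨h, hcont, h01, h14, hdec, hψ⟩ := hT 1 one_pos
  obtain ⟨ψ, hψT, hψd⟩ := hψ 0
  obtain ⟨K, hK⟩ := hdec 4
  -- choice of R
  set M : ℝ := |C| * (1 + a₀) * a₀ * a₀ with hM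
  have hM0 : 0 ≤ M := by positivity
  set R : ℝ := 1 + 2 * a₀ + 16 * M / d with hRd
  have hq : 0 ≤ 16 * M / d := by positivity
  have hR1 : 1 ≤ R := by rw [hRd]; linarith
  have hR0 : 0 < R := by linarith
  have hRa : a₀ ≤ R / 2 := by rw [hRd]; linarith
  have hRM : M < d * R / 16 := by
    have h1 : d * (16 * M / d) = 16 * M := by field_simp
    have h2 : d * R = d * (1 + 2 * a₀) + 16 * M := by rw [hRd, mul_add, h1]
    rw [h2]
    have : 0 < d * (1 + 2 * a₀) := by positivity
    linarith
  -- the integral vanishes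
  have hzero : ∫ u in Ioi (0 : ℝ), (u / R) * h (u / R) * O u = 0 := by
    have h1 := hI _ (tst_scale hψT hR1)
    have h2 : ∀ u : ℝ, dt (fun a => R * ψ (R * a)) u * O u
        = (-(1 / R)) * ((u / R) * h (u / R) * O u) := by
      intro u
      rw [dt_scale hR1, hψd]
      ring
    simp_rw [h2] at h1
    rw [integral_const_mul] at h1
    have h3 : -(1 / R) ≠ 0 := by
      have : 0 < 1 / R := by positivity
      linarith
    exact (mul_eq_zero.mp h1).resolve_left h3
  -- lower bound for O
  have hOd : ∀ᵐ u ∂(volume.restrict (Ioi (0 : ℝ))), a₀ < u → d ≤ O u := by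
    have : ∀ᵐ u ∂(volume : Measure ℝ), u ∉ N := hN.ae_notMem volume
    filter_upwards [ae_restrict_of_ae this] with u hu hau
    exact hmono a₀ u ha₀ hu hAa hau
  -- integrability
  have hint : IntegrableOn (fun u => (u / R) * h (u / R) * O u) (Ioi 0) := by
    have hb : IntegrableOn (fun u : ℝ => |C| * R ^ 3 * |K| * (1 + u ^ 2)⁻¹) (Ioi 0) :=
      (integrable_inv_one_add_sq.const_mul _).integrableOn
    refine Integrable.mono' hb ?_ ?_
    · refine AEStronglyMeasurable.mul ?_ hO.aestronglyMeasurable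
      exact ((continuous_id.div_const R).mul (hcont.comp (continuous_id.div_const R))).aestronglyMeasurable
    · filter_upwards [hC, ae_restrict_mem measurableSet_Ioi] with u hu hu0
      have hu0' : 0 < u := hu0
      have hv : 0 < u / R := by positivity
      have e1 : ‖(u / R) * h (u / R) * O u‖ = (u / R) * h (u / R) * |O u| := by
        rw [Real.norm_eq_abs, abs_mul, abs_mul, abs_of_pos hv, abs_of_nonneg (h01 _).1]
      rw [e1]
      have k1 : |O u| ≤ |C| * (1 + u) := hu.trans (mul_le_mul_of_nonneg_right (le_abs_self C) (by linarith))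
      have k2 : h (u / R) * (1 + u / R) ^ 4 ≤ |K| := by
        have := hK (u / R)
        rw [abs_of_pos hv] at this
        exact this.trans (le_abs_self K)
      have k3 : 1 + u ≤ R * (1 + u / R) := by
        have : R * (1 + u / R) = R + u := by field_simp
        linarith
      have k4 : 1 + u ^ 2 ≤ R ^ 2 * (1 + u / R) ^ 2 := by
        have : R ^ 2 * (1 + u / R) ^ 2 = (R + u) ^ 2 := by field_simp
        rw [this]
        nlinarith
      have hh0 := (h01 (u / R)).1
      rw [← div_eq_mul_inv, le_div_iff₀ (by positivity)]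
      have hv1 : 0 < 1 + u / R := by linarith
      calc u / R * h (u / R) * |O u| * (1 + u ^ 2)
          ≤ (1 + u / R) * h (u / R) * (|C| * (R * (1 + u / R))) * (R ^ 2 * (1 + u / R) ^ 2) := by
            have m1 : u / R * h (u / R) ≤ (1 + u / R) * h (u / R) :=
              mul_le_mul_of_nonneg_right (by linarith) hh0
            have m2 : |O u| ≤ |C| * (R * (1 + u / R)) :=
              k1.trans (mul_le_mul_of_nonneg_left k3 (abs_nonneg C))
            have m3 : u / R * h (u / R) * |O u|
                ≤ (1 + u / R) * h (u / R) * (|C| * (R * (1 + u / R))) :=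
              mul_le_mul m1 m2 (abs_nonneg _) (by positivity)
            exact mul_le_mul m3 k4 (by positivity) (by positivity)
        _ = |C| * R ^ 3 * (h (u / R) * (1 + u / R) ^ 4) := by ring
        _ ≤ |C| * R ^ 3 * |K| := mul_le_mul_of_nonneg_left k2 (by positivity)
  -- comparison function
  set φ : ℝ → ℝ := fun u => (Ioc 0 a₀).indicator (fun _ => -(|C| * (1 + a₀) * a₀)) u
    + (Ioc (R / 2) R).indicator (fun _ => d / 8) u with hφ
  have hφi1 : Integrable ((Ioc 0 a₀).indicator (fun _ : ℝ => -(|C| * (1 + a₀) * a₀))) :=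
    (integrable_indicator_iff measurableSet_Ioc).mpr (by
      rw [IntegrableOn]; exact integrable_const _)
  have hφi2 : Integrable ((Ioc (R / 2) R).indicator (fun _ : ℝ => d / 8)) :=
    (integrable_indicator_iff measurableSet_Ioc).mpr (by
      rw [IntegrableOn]; exact integrable_const _)
  have hφint : ∫ u in Ioi (0 : ℝ), φ u = -M + d * R / 16 := by
    rw [hφ, integral_add hφi1.integrableOn hφi2.integrableOn]
    rw [setIntegral_indicator measurableSet_Ioc, setIntegral_indicator measurableSet_Ioc]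
    have s1 : Ioi (0 : ℝ) ∩ Ioc 0 a₀ = Ioc 0 a₀ := by
      ext x; simp only [mem_inter_iff, mem_Ioi, mem_Ioc]; tauto
    have s2 : Ioi (0 : ℝ) ∩ Ioc (R / 2) R = Ioc (R / 2) R := by
      ext x; simp only [mem_inter_iff, mem_Ioi, mem_Ioc]
      constructor
      · exact fun hx => hx.2
      · exact fun hx => ⟨by linarith [hx.1], hx⟩
    rw [s1, s2, setIntegral_const, setIntegral_const, smul_eq_mul, smul_eq_mul]
    simp only [measureReal_def, Real.volume_Ioc]
    rw [ENNReal.toReal_ofReal (by linarith), ENNReal.toReal_ofReal (by linarith)]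
    rw [hM]
    ring
  have hle : ∀ᵐ u ∂(volume.restrict (Ioi (0 : ℝ))), φ u ≤ (u / R) * h (u / R) * O u := by
    filter_upwards [hC, hOd, ae_restrict_mem measurableSet_Ioi] with u hu hud hu0
    have hu0' : 0 < u := hu0
    have hv : 0 < u / R := by positivity
    have hh := h01 (u / R)
    have hw : 0 ≤ u / R * h (u / R) := mul_nonneg hv.le hh.1
    simp only [hφ]
    by_cases hc1 : u ≤ a₀
    · have m1 : u ∈ Ioc 0 a₀ := ⟨hu0', hc1⟩
      have m2 : u ∉ Ioc (R / 2) R := fun hx => by linarith [hx.1]
      rw [indicator_of_mem m1, indicator_of_notMem m2, add_zero]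
      have k1 : |O u| ≤ |C| * (1 + a₀) := by
        refine hu.trans ?_
        exact (mul_le_mul_of_nonneg_right (le_abs_self C) (by linarith)).trans
          (mul_le_mul_of_nonneg_left (by linarith) (abs_nonneg C))
      have k2 : u / R * h (u / R) ≤ a₀ := by
        have : u / R ≤ a₀ := by
          rw [div_le_iff₀ hR0]
          nlinarith
        calc u / R * h (u / R) ≤ u / R * 1 := mul_le_mul_of_nonneg_left hh.2 hv.le
          _ ≤ a₀ := by linarith
      have k3 : u / R * h (u / R) * |O u| ≤ a₀ * (|C| * (1 + a₀)) :=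
        mul_le_mul k2 k1 (abs_nonneg _) ha0.le
      have k4 : -(u / R * h (u / R) * |O u|) ≤ u / R * h (u / R) * O u := by
        have := mul_le_mul_of_nonneg_left (neg_abs_le (O u)) hw
        linarith
      linarith
    · push Not at hc1
      have hOu := hud hc1
      have m1 : u ∉ Ioc 0 a₀ := fun hx => by linarith [hx.2]
      rw [indicator_of_notMem m1, zero_add]
      by_cases hc2 : u ∈ Ioc (R / 2) R
      · rw [indicator_of_mem hc2]
        have k1 : 1 / 2 ≤ u / R := by
          rw [le_div_iff₀ hR0]; linarith [hc2.1]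
        have k2 : 1 / 4 ≤ h (u / R) := by
          apply h14
          rw [abs_of_pos hv, div_le_one hR0]
          exact hc2.2
        have k3 : 1 / 2 * (1 / 4) ≤ u / R * h (u / R) :=
          mul_le_mul k1 k2 (by norm_num) hv.le
        have k4 : 1 / 2 * (1 / 4) * d ≤ u / R * h (u / R) * O u :=
          mul_le_mul k3 hOu hd.le hw
        linarith
      · rw [indicator_of_notMem hc2]
        exact mul_nonneg hw (hd.le.trans hOu)
  have hfin := integral_mono_ae (μ := volume.restrict (Ioi (0 : ℝ)))
    ((hφi1.add hφi2).integrableOn (s := Ioi (0:ℝ))) hint hle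
  rw [hzero] at hfin
  have : ∫ u in Ioi (0 : ℝ), φ u = ∫ a in Ioi (0 : ℝ), ((Ioc 0 a₀).indicator (fun _ => -(|C| * (1 + a₀) * a₀)) + (Ioc (R / 2) R).indicator fun _ => d / 8) a := rfl
  rw [← this, hφint] at hfin
  linarith

end Pool.Agent.W605.PR
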